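import Mathlib

set_option autoImplicit false

/-! Finitary automorphisms of the binary rooted tree; vertices are lists, parent is the tail. -/

namespace Pool.Agent.J4H83.FinTree

/-- `Below v w`: the vertex `w` lies in the subtree rooted at `v`. -/
def Below (v w : List Bool) : Prop := ∃ k : ℕ, List.tail^[k] w = v

lemma length_iter_tail (k : ℕ) (w : List Bool) : (List.tail^[k] w).length = w.length - k := by
  induction k generalizing w with
  | zero => simp
  | succ k ih => rw [Function.iterate_succ_apply, ih]; simp; omega

lemma below_refl (v : List Bool) : Below v v := ⟨0, rfl⟩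

lemma below_cons {v w : List Bool} (b : Bool) (h : Below v w) : Below v (b :: w) := by
  obtain ⟨k, hk⟩ := h
  exact ⟨k + 1, by rw [Function.iterate_succ_apply]; simpa using hk⟩

lemma below_of_cons {v w : List Bool} {b : Bool} (h : Below v (b :: w)) :
    v = b :: w ∨ Below v w := by
  obtain ⟨k, hk⟩ := h
  cases k with
  | zero => left; simpa using hk.symm
  | succ k => right; exact ⟨k, by rw [Function.iterate_succ_apply] at hk; simpa using hk⟩

lemma below_tail {v w : List Bool} (h : Below v w.tail) : Below v w := by
  obtain ⟨k, hk⟩ := h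
  exact ⟨k + 1, by rw [Function.iterate_succ_apply]; exact hk⟩

lemma below_length {v w : List Bool} (h : Below v w) : v.length ≤ w.length := by
  obtain ⟨k, hk⟩ := h
  rw [← hk, length_iter_tail]; omega

/-- Two vertices of the same level above a common vertex agree. -/
lemma below_unique {v v' w : List Bool} (h : Below v w) (h' : Below v' w)
    (hl : v.length = v'.length) : v = v' := by
  obtain ⟨k, hk⟩ := h
  obtain ⟨k', hk'⟩ := h'
  have e1 : v.length = w.length - k := by rw [← hk, length_iter_tail]
  have e2 : v'.length = w.length - k' := by rw [← hk', length_iter_tail]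
  by_cases h0 : v.length = 0
  · have h1 : v = [] := List.length_eq_zero_iff.mp h0
    have h2 : v' = [] := List.length_eq_zero_iff.mp (hl.symm.trans h0)
    rw [h1, h2]
  · have : k = k' := by omega
    subst this
    rw [← hk, ← hk']

/-- The finitary automorphism group of the binary rooted tree. -/
def Fin2 : Subgroup (Equiv.Perm (List Bool)) where
  carrier := {g | (∀ v, (g v).length = v.length) ∧ (∀ v, (g v).tail = g v.tail) ∧
    ∃ N : ℕ, ∀ b v, N ≤ v.length → g (b :: v) = b :: g v}
  mul_mem' := by
    rintro g h ⟨g1, g2, N, g3⟩ ⟨h1, h2, N', h3⟩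
    refine ⟨fun v => ?_, fun v => ?_, max N N', fun b v hv => ?_⟩
    · simp [g1, h1]
    · simp [g2, h2]
    · have a : N ≤ v.length := le_trans (le_max_left _ _) hv
      have b' : N' ≤ v.length := le_trans (le_max_right _ _) hv
      simp only [Equiv.Perm.coe_mul, Function.comp_apply]
      rw [h3 b v b', g3 b (h v) (by rw [h1]; exact a)]
  one_mem' := ⟨fun v => rfl, fun v => rfl, 0, fun b v _ => rfl⟩
  inv_mem' := by
    rintro g ⟨g1, g2, N, g3⟩
    have l1 : ∀ v, (g⁻¹ v).length = v.length := fun v => by
      have := g1 (g⁻¹ v)
      simpa using this.symm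
    refine ⟨l1, fun v => ?_, N, fun b v hv => ?_⟩
    · rw [Equiv.Perm.eq_inv_iff_eq, ← g2]; simp
    · rw [Equiv.Perm.inv_eq_iff_eq, g3 b _ (by rw [l1]; exact hv)]; simp

lemma mem_iff {g : Equiv.Perm (List Bool)} : g ∈ Fin2 ↔ (∀ v, (g v).length = v.length) ∧
    (∀ v, (g v).tail = g v.tail) ∧ ∃ N : ℕ, ∀ b v, N ≤ v.length → g (b :: v) = b :: g v :=
  Iff.rfl

lemma iter_tail_comm {g : Equiv.Perm (List Bool)} (hg : ∀ v, (g v).tail = g v.tail) (k : ℕ)
    (w : List Bool) : List.tail^[k] (g w) = g (List.tail^[k] w) := by
  induction k generalizing w with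
  | zero => rfl
  | succ k ih => rw [Function.iterate_succ_apply, hg, ih, Function.iterate_succ_apply]

lemma below_map {g : Equiv.Perm (List Bool)} (hg : g ∈ Fin2) {v w : List Bool}
    (h : Below v w) : Below (g v) (g w) := by
  obtain ⟨k, hk⟩ := h
  exact ⟨k, by rw [iter_tail_comm hg.2.1, hk]⟩

/-- The label of `g` at `v`. -/
def lab (g : Equiv.Perm (List Bool)) (v : List Bool) : Bool := (g (false :: v)).headI

lemma apply_cons {g : Equiv.Perm (List Bool)} (hg : g ∈ Fin2) (b : Bool) (v : List Bool) :
    g (b :: v) = xor b (lab g v) :: g v := by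
  have key : ∀ c : Bool, ∃ d : Bool, g (c :: v) = d :: g v := by
    intro c
    have h1 := hg.1 (c :: v)
    have h2 := hg.2.1 (c :: v)
    cases hgc : g (c :: v) with
    | nil => rw [hgc] at h1; simp at h1
    | cons d t => rw [hgc] at h2; simp at h2; exact ⟨d, by rw [h2]⟩
  obtain ⟨d, hd⟩ := key false
  obtain ⟨e, he⟩ := key true
  have hne : d ≠ e := by
    intro h
    subst h
    have := g.injective (hd.trans he.symm)
    simp at this
  have hl : lab g v = d := by simp [lab, hd]
  rw [hl]
  cases b with
  | false => rw [hd]; simp
  | true => rw [he]; cases d <;> cases e <;> simp_all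

lemma lab_mul {g h : Equiv.Perm (List Bool)} (hg : g ∈ Fin2) (hh : h ∈ Fin2) (v : List Bool) :
    lab (g * h) v = xor (lab h v) (lab g (h v)) := by
  have : (g * h) (false :: v) = g (h (false :: v)) := rfl
  unfold lab
  rw [this, apply_cons hh, apply_cons hg]
  simp [lab]

/-- Portrait of the swap at the vertex `u`, as a function. -/
def swapFun (u : List Bool) : List Bool → List Bool
  | [] => []
  | b :: v => (if v = u then !b else b) :: swapFun u v

lemma swapFun_length (u v : List Bool) : (swapFun u v).length = v.length := by
  induction v with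
  | nil => rfl
  | cons b v ih => simp [swapFun, ih]

lemma swapFun_of_le (u v : List Bool) (h : v.length ≤ u.length) : swapFun u v = v := by
  induction v with
  | nil => rfl
  | cons b v ih =>
    have hv : v ≠ u := by rintro rfl; simp at h
    simp only [List.length_cons] at h
    rw [swapFun, if_neg hv, ih (by omega)]

lemma swapFun_eq_iff (u v : List Bool) : swapFun u v = u ↔ v = u := by
  constructor
  · intro h
    have := congrArg List.length h
    rw [swapFun_length] at this
    rwa [swapFun_of_le u v (by omega)] at h
  · rintro rfl; exact swapFun_of_le _ _ le_rfl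

lemma swapFun_invol (u v : List Bool) : swapFun u (swapFun u v) = v := by
  induction v with
  | nil => rfl
  | cons b v ih =>
    simp only [swapFun, swapFun_eq_iff, ih]
    split_ifs <;> simp

/-- The swap of the two subtrees below `u`. -/
def swapAt (u : List Bool) : Equiv.Perm (List Bool) where
  toFun := swapFun u
  invFun := swapFun u
  left_inv := swapFun_invol u
  right_inv := swapFun_invol u

lemma swapAt_mem (u : List Bool) : swapAt u ∈ Fin2 := by
  refine ⟨fun v => swapFun_length u v, fun v => ?_, u.length + 1, fun b v hv => ?_⟩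
  · cases v with
    | nil => rfl
    | cons b v => rfl
  · change swapFun u (b :: v) = b :: swapFun u v
    have : v ≠ u := by rintro rfl; omega
    rw [swapFun, if_neg this]

lemma lab_swapAt (u v : List Bool) : lab (swapAt u) v = decide (v = u) := by
  change (swapFun u (false :: v)).headI = _
  rw [swapFun]
  by_cases h : v = u <;> simp [h]

/-- Level transitivity. -/
lemma exists_map (v w : List Bool) (h : v.length = w.length) : ∃ g ∈ Fin2, g v = w := by
  induction v generalizing w with
  | nil =>
    refine ⟨1, Fin2.one_mem, ?_⟩
    have : w = [] := by simpa using h.symm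
    simp [this]
  | cons b v ih =>
    cases w with
    | nil => simp at h
    | cons c w =>
      simp only [List.length_cons, Nat.add_right_cancel_iff] at h
      obtain ⟨g, hg, hgv⟩ := ih w h
      by_cases hc : xor b (lab g v) = c
      · exact ⟨g, hg, by rw [apply_cons hg, hgv, hc]⟩
      · refine ⟨swapAt w * g, Fin2.mul_mem (swapAt_mem w) hg, ?_⟩
        have e : (swapAt w * g) (b :: v) = swapAt w (g (b :: v)) := rfl
        rw [e, apply_cons hg, hgv, apply_cons (swapAt_mem w), lab_swapAt]
        have e2 : swapAt w w = w := swapFun_of_le _ _ le_rfl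
        rw [e2]
        simp only [decide_true, List.cons.injEq, and_true]
        revert hc
        cases b <;> cases c <;> cases lab g v <;> simp

open Classical in
/-- `g` restricted to the subtree at `v`, trivial elsewhere. -/
noncomputable def restr (g : Equiv.Perm (List Bool)) (hg : g ∈ Fin2) (v : List Bool)
    (hv : g v = v) : Equiv.Perm (List Bool) where
  toFun w := if Below v w then g w else w
  invFun w := if Below v w then g⁻¹ w else w
  left_inv w := by
    by_cases h : Below v w
    · have : Below v (g w) := by simpa [hv] using below_map hg h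
      simp [h, this]
    · simp [h]
  right_inv w := by
    by_cases h : Below v w
    · have : Below v (g⁻¹ w) := by
        have hv' : g⁻¹ v = v := by rw [Equiv.Perm.inv_eq_iff_eq, hv]
        simpa [hv'] using below_map (Fin2.inv_mem hg) h
      simp only [h, this, if_true]
      simp
    · simp [h]

lemma restr_apply_of_below {g : Equiv.Perm (List Bool)} {hg : g ∈ Fin2} {v : List Bool}
    {hv : g v = v} {w : List Bool} (h : Below v w) : restr g hg v hv w = g w := by
  simp [restr, h]

lemma restr_apply_of_not {g : Equiv.Perm (List Bool)} {hg : g ∈ Fin2} {v : List Bool}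
    {hv : g v = v} {w : List Bool} (h : ¬ Below v w) : restr g hg v hv w = w := by
  simp [restr, h]

lemma restr_mem (g : Equiv.Perm (List Bool)) (hg : g ∈ Fin2) (v : List Bool)
    (hv : g v = v) : restr g hg v hv ∈ Fin2 := by
  refine ⟨fun w => ?_, fun w => ?_, ?_⟩
  · by_cases h : Below v w
    · rw [restr_apply_of_below h, hg.1]
    · rw [restr_apply_of_not h]
  · by_cases h : Below v w
    · rw [restr_apply_of_below h, hg.2.1]
      cases w with
      | nil =>
        rw [List.tail_nil, restr_apply_of_below h]
      | cons b w =>
        rw [List.tail_cons]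
        rcases below_of_cons h with rfl | h'
        · have : g w = w := by
            have := congrArg List.tail hv
            rwa [hg.2.1, List.tail_cons] at this
          rw [this]
          rw [restr_apply_of_not]
          intro hb
          have := below_length hb
          simp at this
        · rw [restr_apply_of_below h']
    · rw [restr_apply_of_not h, restr_apply_of_not]
      intro h'
      exact h (below_tail h')
  · obtain ⟨N, hN⟩ := hg.2.2
    refine ⟨max N v.length, fun b w hw => ?_⟩
    have h1 : N ≤ w.length := le_trans (le_max_left _ _) hw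
    have h2 : v.length ≤ w.length := le_trans (le_max_right _ _) hw
    by_cases h : Below v w
    · rw [restr_apply_of_below h, restr_apply_of_below (below_cons b h), hN b w h1]
    · rw [restr_apply_of_not h, restr_apply_of_not]
      intro h'
      rcases below_of_cons h' with rfl | h'
      · simp at h2
      · exact h h'

/-- The level stabiliser is generated by rigid stabilisers. -/
lemma mem_closure_rist (n : ℕ) (S : Finset (List Bool)) :
    (∀ v ∈ S, v.length = n) → ∀ g : Fin2, (∀ v, v.length ≤ n → g.1 v = v) →
    (∀ w, (∀ v ∈ S, ¬ Below v w) → g.1 w = w) →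
    g ∈ Subgroup.closure {g : Fin2 | ∃ v : List Bool, v.length = n ∧
          ∀ w : List Bool, (∀ k : ℕ, List.tail^[k] w ≠ v) → g • w = w} := by
  classical
  induction S using Finset.induction_on with
  | empty =>
    intro _ g _ hg
    have : g = 1 := by
      ext1
      ext1 w
      exact hg w (by simp)
    rw [this]
    exact Subgroup.one_mem _
  | insert v S hvS ih =>
    intro hS g hg1 hg2
    have hv : v.length = n := hS v (Finset.mem_insert_self _ _)
    have hgv : g.1 v = v := hg1 v hv.le
    set r : Fin2 := ⟨restr g.1 g.2 v hgv, restr_mem _ _ _ _⟩ with hr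
    have hrmem : r ∈ Subgroup.closure {g : Fin2 | ∃ v : List Bool, v.length = n ∧
          ∀ w : List Bool, (∀ k : ℕ, List.tail^[k] w ≠ v) → g • w = w} := by
      apply Subgroup.subset_closure
      refine ⟨v, hv, fun w hw => ?_⟩
      change restr g.1 g.2 v hgv w = w
      apply restr_apply_of_not
      rintro ⟨k, hk⟩
      exact hw k hk
    have hrl : ∀ w : List Bool, w.length ≤ n → r.1 w = w := by
      intro w hw
      change restr g.1 g.2 v hgv w = w
      by_cases h : Below v w
      · rw [restr_apply_of_below h, hg1 w hw]
      · rw [restr_apply_of_not h]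
    have hrest : r⁻¹ * g ∈ Subgroup.closure {g : Fin2 | ∃ v : List Bool, v.length = n ∧
          ∀ w : List Bool, (∀ k : ℕ, List.tail^[k] w ≠ v) → g • w = w} := by
      apply ih (fun u hu => hS u (Finset.mem_insert_of_mem hu))
      · intro w hw
        change (r.1)⁻¹ (g.1 w) = w
        rw [hg1 w hw, Equiv.Perm.inv_eq_iff_eq, hrl w hw]
      · intro w hw
        change (r.1)⁻¹ (g.1 w) = w
        rw [Equiv.Perm.inv_eq_iff_eq]
        change g.1 w = restr g.1 g.2 v hgv w
        by_cases h : Below v w
        · rw [restr_apply_of_below h]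
        · rw [restr_apply_of_not h]
          apply hg2
          intro u hu
          rcases Finset.mem_insert.mp hu with rfl | hu
          · exact h
          · exact hw u hu
    have : g = r * (r⁻¹ * g) := by group
    rw [this]
    exact Subgroup.mul_mem _ hrmem hrest

/-- The level stabiliser. -/
def St (n : ℕ) : Subgroup Fin2 where
  carrier := {g | ∀ v : List Bool, v.length ≤ n → g.1 v = v}
  mul_mem' := by
    intro g h hg hh v hv
    change g.1 (h.1 v) = v
    rw [hh v hv, hg v hv]
  one_mem' := fun v _ => rfl
  inv_mem' := by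
    intro g hg v hv
    change (g.1)⁻¹ v = v
    rw [Equiv.Perm.inv_eq_iff_eq, hg v hv]

lemma mem_St {n : ℕ} {g : Fin2} : g ∈ St n ↔ ∀ v : List Bool, v.length ≤ n → g.1 v = v := Iff.rfl

lemma St_normal (n : ℕ) : (St n).Normal := by
  constructor
  intro g hg h v hv
  change h.1 (g.1 ((h.1)⁻¹ v)) = v
  rw [hg _ _]
  · simp
  · have e := h.2.1 ((h.1)⁻¹ v)
    have e2 : h.1 ((h.1)⁻¹ v) = v := Equiv.apply_symm_apply h.1 v
    rw [e2] at e
    rw [← e]; exact hv

lemma finite_le (n : ℕ) : {v : List Bool | v.length ≤ n}.Finite := List.finite_length_le Bool n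

/-- Restriction to levels up to `n`. -/
def toPerm (n : ℕ) : Fin2 →* Equiv.Perm {v : List Bool // v.length ≤ n} where
  toFun g :=
    { toFun := fun v => ⟨g.1 v.1, by rw [g.2.1]; exact v.2⟩
      invFun := fun v => ⟨(g⁻¹).1 v.1, by rw [(g⁻¹).2.1]; exact v.2⟩
      left_inv := fun v => by ext1; change (g.1)⁻¹ (g.1 v.1) = v.1; simp
      right_inv := fun v => by ext1; change g.1 ((g.1)⁻¹ v.1) = v.1; simp }
  map_one' := by ext1 v; rfl
  map_mul' g h := by ext1 v; rfl

lemma St_eq_ker (n : ℕ) : St n = (toPerm n).ker := by
  ext g
  rw [mem_St, MonoidHom.mem_ker]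
  constructor
  · intro h
    ext1 v
    ext1
    exact h v.1 v.2
  · intro h v hv
    have := congrArg (fun e => (e ⟨v, hv⟩).1) h
    exact this

lemma St_finiteIndex (n : ℕ) : (St n).FiniteIndex := by
  rw [St_eq_ker]
  have : Finite {v : List Bool // v.length ≤ n} := (finite_le n).to_subtype
  infer_instance

/-- Label as an element of `ZMod 2`. -/
def labZ (g : Fin2) (v : List Bool) : ZMod 2 := if lab g.1 v then 1 else 0

lemma labZ_mul (g h : Fin2) (v : List Bool) : labZ (g * h) v = labZ h v + labZ g (h.1 v) := by
  unfold labZ
  have : lab (g * h).1 v = xor (lab h.1 v) (lab g.1 (h.1 v)) := lab_mul g.2 h.2 v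
  rw [this]
  cases lab h.1 v <;> cases lab g.1 (h.1 v) <;> simp
  decide

lemma labZ_support (g : Fin2) : (Function.support (labZ g)).Finite := by
  obtain ⟨N, hN⟩ := g.2.2.2
  apply (finite_le N).subset
  intro v hv
  by_contra h
  apply hv
  simp only [Set.mem_ofPred_eq, not_le] at h
  have := hN false v h.le
  unfold labZ lab
  rw [this]
  simp

/-- The part of the labels on levels belonging to `A`. -/
noncomputable def part (A : Set ℕ) (g : Fin2) (v : List Bool) : ZMod 2 := by
  classical exact if v.length ∈ A then labZ g v else 0

lemma part_support (A : Set ℕ) (g : Fin2) : (Function.support (part A g)).Finite := by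
  apply (labZ_support g).subset
  intro v hv h
  apply hv
  unfold part
  split_ifs
  · exact h
  · rfl

/-- The level-sum homomorphism attached to a set of levels. -/
noncomputable def lam (A : Set ℕ) : Fin2 →* Multiplicative (ZMod 2) where
  toFun g := Multiplicative.ofAdd (∑ᶠ v, part A g v)
  map_one' := by
    have : ∀ v, part A 1 v = 0 := by
      intro v
      have : labZ 1 v = 0 := by
        unfold labZ lab
        simp
      unfold part
      split_ifs
      · exact this
      · rfl
    simp [this]
  map_mul' g h := by
    rw [← ofAdd_add]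
    congr 1
    have e : ∀ v, part A (g * h) v = part A h v + part A g (h.1 v) := by
      intro v
      unfold part
      rw [h.2.1 v]
      split_ifs
      · exact labZ_mul g h v
      · simp
    have e2 : ∑ᶠ v, part A g (h.1 v) = ∑ᶠ v, part A g v :=
      finsum_comp_equiv h.1 (f := part A g)
    rw [finsum_congr e, finsum_add_distrib (part_support A h), e2, add_comm]
    have : (fun v => part A g (h.1 v)) = part A g ∘ h.1 := rfl
    rw [this]
    have hf := (part_support A g).preimage (h.1.injective.injOn (s := h.1 ⁻¹' Function.support (part A g)))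
    exact hf

lemma lam_swap (A : Set ℕ) (u : List Bool) (hu : u.length ∈ A) :
    lam A ⟨swapAt u, swapAt_mem u⟩ ≠ 1 := by
  classical
  have : ∀ v, part A ⟨swapAt u, swapAt_mem u⟩ v = if v = u then 1 else 0 := by
    intro v
    unfold part labZ
    change (if v.length ∈ A then (if lab (swapAt u) v = true then (1 : ZMod 2) else 0) else 0) = _
    rw [lab_swapAt]
    by_cases h : v = u
    · subst h; simp [hu]
    · simp [h]
  change Multiplicative.ofAdd (∑ᶠ v, part A ⟨swapAt u, swapAt_mem u⟩ v) ≠ 1
  rw [finsum_congr this, finsum_eq_single _ u (by intro v hv; simp [hv])]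
  simp

lemma lam_swap_not (A : Set ℕ) (u : List Bool) (hu : u.length ∉ A) :
    lam A ⟨swapAt u, swapAt_mem u⟩ = 1 := by
  classical
  have : ∀ v, part A ⟨swapAt u, swapAt_mem u⟩ v = 0 := by
    intro v
    unfold part labZ
    change (if v.length ∈ A then (if lab (swapAt u) v = true then (1 : ZMod 2) else 0) else 0) = _
    rw [lab_swapAt]
    by_cases h : v = u
    · subst h; simp [hu]
    · simp [h]
  change Multiplicative.ofAdd (∑ᶠ v, part A ⟨swapAt u, swapAt_mem u⟩ v) = 1
  rw [finsum_congr this]
  simp

/-- The sequences of normal subgroups. -/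
noncomputable def Mseq (A : Set ℕ) (i : ℕ) : Subgroup Fin2 := St i ⊓ (lam A).ker

lemma Mseq_antitone (A : Set ℕ) : Antitone (Mseq A) := by
  intro i j hij g hg
  exact ⟨fun v hv => hg.1 v (hv.trans hij), hg.2⟩

lemma Mseq_normal (A : Set ℕ) (i : ℕ) : (Mseq A i).Normal := by
  have := St_normal i
  exact Subgroup.normal_inf_normal _ _

lemma Mseq_finiteIndex (A : Set ℕ) (i : ℕ) : (Mseq A i).FiniteIndex := by
  have := St_finiteIndex i
  have : (lam A).ker.FiniteIndex := by
    have : Finite (Multiplicative (ZMod 2)) := inferInstanceAs (Finite (ZMod 2))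
    infer_instance
  unfold Mseq
  infer_instance

lemma Mseq_iInf (A : Set ℕ) : (⨅ i, Mseq A i) = ⊥ := by
  rw [eq_bot_iff]
  intro g hg
  rw [Subgroup.mem_iInf] at hg
  rw [Subgroup.mem_bot]
  ext1
  ext1 w
  exact (hg w.length).1 w le_rfl

end Pool.Agent.J4H83.FinTree
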