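import Mathlib

set_option autoImplicit false

open Cardinal TopologicalSpace

namespace Pool.Agent.J4H83.Sikorski

/-- `B` is a Boolean `m`-algebra: every subset of cardinality at most `m` has a join and a meet. -/
def MAlgebra (m : Cardinal.{0}) (B : Type) [BooleanAlgebra B] : Prop :=
  ∀ S : Set B, #S ≤ m → (∃ a, IsLUB S a) ∧ (∃ a, IsGLB S a)

/-- An `m`-homomorphism: a Boolean homomorphism preserving all existing joins and meets of
subsets of cardinality at most `m`. -/
structure IsMHom (m : Cardinal.{0}) {A B : Type} [BooleanAlgebra A] [BooleanAlgebra B]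
    (f : A → B) : Prop where
  map_sup : ∀ a b, f (a ⊔ b) = f a ⊔ f b
  map_inf : ∀ a b, f (a ⊓ b) = f a ⊓ f b
  map_compl : ∀ a, f aᶜ = (f a)ᶜ
  map_isLUB : ∀ (S : Set A) (a : A), #S ≤ m → IsLUB S a → IsLUB (f '' S) (f a)
  map_isGLB : ∀ (S : Set A) (a : A), #S ≤ m → IsGLB S a → IsGLB (f '' S) (f a)

/-- `G` generates `B` as a Boolean `m`-algebra: the only subset of `B` containing `G` and closed
under complements and under joins of subsets of cardinality at most `m` is `B` itself. -/
def MGenerates (m : Cardinal.{0}) {B : Type} [BooleanAlgebra B] (G : Set B) : Prop :=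
  ∀ U : Set B, G ⊆ U → (∀ a ∈ U, aᶜ ∈ U) →
    (∀ S ⊆ U, #S ≤ m → ∀ a, IsLUB S a → a ∈ U) → U = Set.univ

/-- `n`-independence of the images of the maps `i t`: for every set `T'` of at most `n` indices
and non-zero `c t`, the meet of the `i t (c t)`, `t ∈ T'`, exists and is non-zero. -/
def Indep (n : Cardinal.{0}) {T : Type} {A : T → Type} [∀ t, BooleanAlgebra (A t)] {B : Type}
    [BooleanAlgebra B] (i : ∀ t, A t → B) : Prop :=
  ∀ (T' : Set T) (c : ∀ t, A t), #T' ≤ n → (∀ t ∈ T', c t ≠ ⊥) →
    ∃ b, IsGLB ((fun t => i t (c t)) '' T') b ∧ b ≠ ⊥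

/-- An `(m,n)`-product of the family `A`. -/
structure MNProduct (m n : Cardinal.{0}) {T : Type} (A : T → Type)
    [∀ t, BooleanAlgebra (A t)] where
  /-- the underlying algebra -/
  carrier : Type
  /-- its Boolean structure -/
  inst : BooleanAlgebra carrier
  /-- it is an `m`-algebra -/
  malg : MAlgebra m carrier
  /-- the embeddings -/
  i : ∀ t, A t → carrier
  hom : ∀ t, IsMHom m (i t)
  inj : ∀ t, Function.Injective (i t)
  indep : Indep n i
  gen : MGenerates m (⋃ t, Set.range (i t))

attribute [instance] MNProduct.inst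

variable {m n : Cardinal.{0}} {T : Type} {A : T → Type} [∀ t, BooleanAlgebra (A t)]

/-- Minimality: the non-zero meets of at most `n` elements of the form `i t (c t)` (distinct `t`)
are dense. -/
def MNProduct.Minimal (M : MNProduct m n A) : Prop :=
  ∀ b : M.carrier, b ≠ ⊥ → ∃ (T' : Set T) (c : ∀ t, A t) (x : M.carrier), #T' ≤ n ∧
    IsGLB ((fun t => M.i t (c t)) '' T') x ∧ x ≠ ⊥ ∧ x ≤ b

/-- The order on products: `P` is below `Q` if some `m`-homomorphism from the algebra of `Q` to
that of `P` carries the embeddings of `Q` to those of `P`. -/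
def MNProduct.LE (P Q : MNProduct m n A) : Prop :=
  ∃ h : Q.carrier → P.carrier, IsMHom m h ∧ ∀ t a, h (Q.i t a) = P.i t a

end Pool.Agent.J4H83.Sikorski
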