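import Mathlib
import Pool.Agent.J4H83.SikorskiDefs

set_option autoImplicit false

open Cardinal TopologicalSpace Heyting

namespace Pool.Agent.J4H83.Sikorski

section general

lemma isGLB_compl {B : Type} [BooleanAlgebra B] {S : Set B} {a : B} (h : IsLUB S a) :
    IsGLB (compl '' S) aᶜ := by
  constructor
  · rintro _ ⟨x, hx, rfl⟩
    exact compl_le_compl (h.1 hx)
  · intro b hb
    rw [le_compl_comm]
    apply h.2
    intro x hx
    rw [← compl_le_compl_iff_le, compl_compl] at *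
    exact hb ⟨x, hx, rfl⟩

lemma isLUB_compl {B : Type} [BooleanAlgebra B] {S : Set B} {a : B} (h : IsGLB S a) :
    IsLUB (compl '' S) aᶜ := by
  constructor
  · rintro _ ⟨x, hx, rfl⟩
    exact compl_le_compl (h.1 hx)
  · intro b hb
    rw [compl_le_iff_compl_le]
    apply h.2
    intro x hx
    rw [compl_le_iff_compl_le]
    exact hb ⟨x, hx, rfl⟩

lemma image_compl_compl {B : Type} [BooleanAlgebra B] (S : Set B) : compl '' (compl '' S) = S := by
  rw [Set.image_image]; simp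

/-- A Boolean algebra in which all joins exist. -/
def AllLUB (B : Type) [BooleanAlgebra B] : Prop := ∀ S : Set B, ∃ a, IsLUB S a

lemma AllLUB.glb {B : Type} [BooleanAlgebra B] (h : AllLUB B) (S : Set B) : ∃ a, IsGLB S a := by
  obtain ⟨a, ha⟩ := h (compl '' S)
  refine ⟨aᶜ, ?_⟩
  have := isGLB_compl ha
  rwa [image_compl_compl] at this

/-- The `m`-subalgebra generated by `G`, as a set. -/
def mcl (m : Cardinal.{0}) {B : Type} [BooleanAlgebra B] (G : Set B) : Set B :=
  {b | ∀ U : Set B, G ⊆ U → (∀ a ∈ U, aᶜ ∈ U) →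
    (∀ S ⊆ U, #S ≤ m → ∀ a, IsLUB S a → a ∈ U) → b ∈ U}

variable {m : Cardinal.{0}} {B : Type} [BooleanAlgebra B] {G : Set B}

lemma subset_mcl : G ⊆ mcl m G := fun _ hb _ hG _ _ => hG hb

lemma mcl_compl {a : B} (h : a ∈ mcl m G) : aᶜ ∈ mcl m G :=
  fun U hG hc hl => hc a (h U hG hc hl)

lemma mcl_lub {S : Set B} (hS : S ⊆ mcl m G) (hm : #S ≤ m) {a : B} (ha : IsLUB S a) :
    a ∈ mcl m G :=
  fun U hG hc hl => hl S (fun s hs => hS hs U hG hc hl) hm a ha

lemma mcl_glb {S : Set B} (hS : S ⊆ mcl m G) (hm : #S ≤ m) {a : B} (ha : IsGLB S a) :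
    a ∈ mcl m G := by
  have h1 := isLUB_compl ha
  have h2 : compl '' S ⊆ mcl m G := by
    rintro _ ⟨x, hx, rfl⟩
    exact mcl_compl (hS hx)
  have h3 := mcl_compl (mcl_lub h2 (mk_image_le.trans hm) h1)
  rwa [compl_compl] at h3

lemma mcl_sup (hm : ℵ₀ ≤ m) {a b : B} (ha : a ∈ mcl m G) (hb : b ∈ mcl m G) :
    a ⊔ b ∈ mcl m G := by
  apply mcl_lub (S := {a, b})
  · rintro x (rfl | rfl)
    · exact ha
    · exact hb
  · exact ((Set.toFinite ({a, b} : Set B)).lt_aleph0.le).trans hm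
  · exact isLUB_pair

lemma mcl_inf (hm : ℵ₀ ≤ m) {a b : B} (ha : a ∈ mcl m G) (hb : b ∈ mcl m G) :
    a ⊓ b ∈ mcl m G := by
  have := mcl_compl (mcl_sup hm (mcl_compl ha) (mcl_compl hb))
  simpa using this

lemma mcl_bot (hm : ℵ₀ ≤ m) : (⊥ : B) ∈ mcl m G := by
  apply mcl_lub (S := ∅) (by simp)
  · exact ((Set.toFinite (∅ : Set B)).lt_aleph0.le).trans hm
  · exact isLUB_empty

/-- The generated subalgebra. -/
def genSub (m : Cardinal.{0}) (hm : ℵ₀ ≤ m) {B : Type} [BooleanAlgebra B] (G : Set B) :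
    BooleanSubalgebra B where
  carrier := mcl m G
  supClosed' := fun _ ha _ hb => mcl_sup hm ha hb
  infClosed' := fun _ ha _ hb => mcl_inf hm ha hb
  compl_mem' := mcl_compl
  bot_mem' := mcl_bot hm

lemma mem_genSub (hm : ℵ₀ ≤ m) {b : B} : b ∈ genSub m hm G ↔ b ∈ mcl m G := Iff.rfl

lemma isLUB_of_coe {L : BooleanSubalgebra B} {S : Set L} {a : L}
    (h : IsLUB ((fun x : L => (x : B)) '' S) (a : B)) : IsLUB S a := by
  constructor
  · intro x hx
    exact h.1 ⟨x, hx, rfl⟩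
  · intro b hb
    apply h.2
    rintro _ ⟨x, hx, rfl⟩
    exact hb hx

lemma isGLB_of_coe {L : BooleanSubalgebra B} {S : Set L} {a : L}
    (h : IsGLB ((fun x : L => (x : B)) '' S) (a : B)) : IsGLB S a := by
  constructor
  · intro x hx
    exact h.1 ⟨x, hx, rfl⟩
  · intro b hb
    apply h.2
    rintro _ ⟨x, hx, rfl⟩
    exact hb hx

lemma exists_lub_genSub (hm : ℵ₀ ≤ m) (hB : AllLUB B) (S : Set (genSub m hm G))
    (hS : #S ≤ m) : ∃ a : genSub m hm G, IsLUB ((fun x : genSub m hm G => (x : B)) '' S) (a : B) := by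
  obtain ⟨a, ha⟩ := hB ((fun x : genSub m hm G => (x : B)) '' S)
  refine ⟨⟨a, ?_⟩, ha⟩
  apply mcl_lub _ (mk_image_le.trans hS) ha
  rintro _ ⟨x, _, rfl⟩
  exact x.2

lemma exists_glb_genSub (hm : ℵ₀ ≤ m) (hB : AllLUB B) (S : Set (genSub m hm G))
    (hS : #S ≤ m) : ∃ a : genSub m hm G, IsGLB ((fun x : genSub m hm G => (x : B)) '' S) (a : B) := by
  obtain ⟨a, ha⟩ := hB.glb ((fun x : genSub m hm G => (x : B)) '' S)
  refine ⟨⟨a, ?_⟩, ha⟩
  apply mcl_glb _ (mk_image_le.trans hS) ha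
  rintro _ ⟨x, _, rfl⟩
  exact x.2

lemma malg_genSub (hm : ℵ₀ ≤ m) (hB : AllLUB B) : MAlgebra m (genSub m hm G) := by
  intro S hS
  obtain ⟨a, ha⟩ := exists_lub_genSub hm hB S hS
  obtain ⟨b, hb⟩ := exists_glb_genSub hm hB S hS
  exact ⟨⟨a, isLUB_of_coe ha⟩, ⟨b, isGLB_of_coe hb⟩⟩

lemma generates_genSub (hm : ℵ₀ ≤ m) :
    MGenerates m ((fun x : genSub m hm G => (x : B)) ⁻¹' G) := by
  intro U hU hc hl
  rw [Set.eq_univ_iff_forall]
  rintro ⟨b, hb⟩
  have := hb {x | ∃ h : x ∈ genSub m hm G, (⟨x, h⟩ : genSub m hm G) ∈ U} ?_ ?_ ?_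
  · obtain ⟨_, h2⟩ := this
    exact h2
  · intro g hg
    exact ⟨subset_mcl hg, hU hg⟩
  · rintro a ⟨ha, haU⟩
    exact ⟨mcl_compl ha, hc _ haU⟩
  · intro S hS hSm a ha
    have hSm' : #((fun x : genSub m hm G => (x : B)) ⁻¹' S) ≤ m := by
      refine le_trans ?_ hSm
      exact mk_preimage_of_injective _ _ Subtype.coe_injective
    have himg : (fun x : genSub m hm G => (x : B)) '' ((fun x : genSub m hm G => (x : B)) ⁻¹' S)
        = S := by
      apply Set.image_preimage_eq_of_subset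
      intro s hs
      exact ⟨⟨s, (hS hs).1⟩, rfl⟩
    have hamem : a ∈ genSub m hm G := mcl_lub (fun s hs => (hS hs).1) hSm ha
    refine ⟨hamem, hl _ ?_ hSm' ⟨a, hamem⟩ ?_⟩
    · rintro ⟨s, hs⟩ hsS
      obtain ⟨_, h2⟩ := hS hsS
      exact h2
    · apply isLUB_of_coe
      rw [himg]
      exact ha

end general

section topo

variable {Y : Type} [TopologicalSpace Y]

abbrev RO (Y : Type) [TopologicalSpace Y] := Regular (Opens Y)

lemma ro_allLUB (Y : Type) [TopologicalSpace Y] : AllLUB (RO Y) := by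
  intro S
  refine ⟨Regular.toRegular (sSup ((fun a : RO Y => (a : Opens Y)) '' S)), ?_, ?_⟩
  · intro a ha
    rw [← Regular.coe_le_coe]
    exact (le_sSup (Set.mem_image_of_mem _ ha)).trans le_compl_compl
  · intro b hb
    rw [Regular.gi.gc.le_iff_le]
    apply sSup_le
    rintro _ ⟨a, ha, rfl⟩
    exact Regular.coe_le_coe.2 (hb ha)

lemma le_of_disjoint_compl {G : Opens Y} {W : RO Y} (h : Disjoint G ((Wᶜ : RO Y) : Opens Y)) :
    G ≤ (W : Opens Y) := by
  rw [Regular.coe_compl] at h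
  rw [← le_compl_iff_disjoint_right, W.prop.eq] at h
  exact h

abbrev Cantor := ℕ → Bool

/-- preimage of a clopen set -/
def pre (f : Y → Cantor) (hf : Continuous f) (U : Clopens Cantor) : Opens Y :=
  ⟨f ⁻¹' U, U.isOpen.preimage hf⟩

lemma pre_compl (f : Y → Cantor) (hf : Continuous f) (U : Clopens Cantor) :
    pre f hf Uᶜ = (pre f hf U)ᶜ := by
  apply Opens.ext
  rw [Opens.coe_compl_eq_interior_compl]
  have h1 : IsOpen ((pre f hf U : Opens Y) : Set Y)ᶜ := by
    have : ((pre f hf U : Opens Y) : Set Y)ᶜ = f ⁻¹' ((Uᶜ : Clopens Cantor) : Set Cantor) := rfl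
    rw [this]
    exact (Uᶜ : Clopens Cantor).isOpen.preimage hf
  rw [h1.interior_eq]
  rfl

/-- The embedding of clopen sets in the regular open algebra. -/
def emb (f : Y → Cantor) (hf : Continuous f) (U : Clopens Cantor) : RO Y :=
  ⟨pre f hf U, by
    change (pre f hf U)ᶜᶜ = _
    rw [← pre_compl, ← pre_compl, compl_compl]⟩

lemma coe_emb (f : Y → Cantor) (hf : Continuous f) (U : Clopens Cantor) :
    ((emb f hf U : RO Y) : Opens Y) = pre f hf U := rfl

lemma mem_emb (f : Y → Cantor) (hf : Continuous f) (U : Clopens Cantor) (y : Y) :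
    y ∈ ((emb f hf U : RO Y) : Opens Y) ↔ f y ∈ U := Iff.rfl

lemma emb_compl (f : Y → Cantor) (hf : Continuous f) (U : Clopens Cantor) :
    emb f hf Uᶜ = (emb f hf U)ᶜ := by
  apply Regular.coe_injective
  rw [Regular.coe_compl, coe_emb, coe_emb, pre_compl]

lemma emb_inf (f : Y → Cantor) (hf : Continuous f) (U V : Clopens Cantor) :
    emb f hf (U ⊓ V) = emb f hf U ⊓ emb f hf V := by
  apply Regular.coe_injective
  rw [Regular.coe_inf]
  rfl

lemma sup_eq_compl {B : Type} [BooleanAlgebra B] (a b : B) : a ⊔ b = (aᶜ ⊓ bᶜ)ᶜ := by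
  rw [compl_inf, compl_compl, compl_compl]

lemma emb_sup (f : Y → Cantor) (hf : Continuous f) (U V : Clopens Cantor) :
    emb f hf (U ⊔ V) = emb f hf U ⊔ emb f hf V := by
  rw [sup_eq_compl U V, emb_compl, emb_inf, emb_compl, emb_compl]
  exact (sup_eq_compl (emb f hf U) (emb f hf V)).symm

/-- weak openness -/
def WOpen (f : Y → Cantor) : Prop :=
  ∀ G : Opens Y, (G : Set Y).Nonempty → ∃ C : Clopens Cantor, C ≠ ⊥ ∧
    (C : Set Cantor) ⊆ f '' G

lemma emb_isLUB (f : Y → Cantor) (hf : Continuous f) (ho : WOpen f) (S : Set (Clopens Cantor))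
    (U : Clopens Cantor) (h : IsLUB S U) : IsLUB (emb f hf '' S) (emb f hf U) := by
  constructor
  · rintro _ ⟨V, hV, rfl⟩
    rw [← Regular.coe_le_coe]
    intro y hy
    exact h.1 hV hy
  · intro W hW
    rw [← Regular.coe_le_coe]
    apply le_of_disjoint_compl
    rw [disjoint_iff]
    by_contra hne
    rw [← Ne, Opens.ne_bot_iff_nonempty] at hne
    obtain ⟨C, hC, hCs⟩ := ho _ hne
    have hdisj : ∀ V ∈ S, V ≤ Cᶜ := by
      intro V hV z hz hzC
      obtain ⟨y, hy, rfl⟩ := hCs hzC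
      have h1 : y ∈ (W : Opens Y) :=
        (Regular.coe_le_coe.2 (hW ⟨V, hV, rfl⟩)) (show y ∈ ((emb f hf V : RO Y) : Opens Y) from hz)
      have h2 : y ∈ ((W : Opens Y) ⊓ (Wᶜ : RO Y) : Opens Y) := ⟨h1, hy.2⟩
      rw [Regular.coe_compl, inf_compl_self] at h2
      exact h2
    have h2 : U ≤ Cᶜ := h.2 hdisj
    apply hC
    have hCU : C ≤ U := by
      intro z hz
      obtain ⟨y, hy, rfl⟩ := hCs hz
      exact hy.1
    have := le_inf hCU (le_refl C)
    have h3 : C ≤ Cᶜ ⊓ C := le_inf (hCU.trans h2) le_rfl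
    rw [compl_inf_self] at h3
    exact le_bot_iff.mp h3

lemma emb_isGLB (f : Y → Cantor) (hf : Continuous f) (ho : WOpen f) (S : Set (Clopens Cantor))
    (U : Clopens Cantor) (h : IsGLB S U) : IsGLB (emb f hf '' S) (emb f hf U) := by
  have h1 := isGLB_compl (emb_isLUB f hf ho _ _ (isLUB_compl h))
  have e : compl '' (emb f hf '' (compl '' S)) = emb f hf '' S := by
    rw [Set.image_image, Set.image_image]
    apply Set.image_congr
    intro V _
    rw [← emb_compl, compl_compl]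
  rw [e, ← emb_compl, compl_compl] at h1
  exact h1

lemma emb_injective (f : Y → Cantor) (hf : Continuous f) (hs : Function.Surjective f) :
    Function.Injective (emb f hf) := by
  intro U V h
  apply Clopens.ext
  have : (f ⁻¹' (U : Set Cantor)) = f ⁻¹' (V : Set Cantor) := by
    have := congrArg (fun W : RO Y => ((W : Opens Y) : Set Y)) h
    exact this
  exact hs.preimage_injective this

end topo

section product

variable {m n : Cardinal.{0}} {T : Type} {Y : Type} [TopologicalSpace Y]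

/-- The hypotheses making a system of maps to the Cantor set into a product. -/
structure Sys (n : Cardinal.{0}) (T Y : Type) [TopologicalSpace Y] where
  f : T → Y → Cantor
  cont : ∀ t, Continuous (f t)
  wopen : ∀ t, WOpen (f t)
  surj : ∀ t, Function.Surjective (f t)
  box : ∀ (T' : Set T) (c : T → Clopens Cantor), #T' ≤ n → (∀ t ∈ T', c t ≠ ⊥) →
    ∃ G : Opens Y, (G : Set Y).Nonempty ∧ ∀ t ∈ T', ∀ y ∈ G, f t y ∈ c t

/-- generators -/
def Sys.gens (s : Sys n T Y) : Set (RO Y) := ⋃ t, Set.range (emb (s.f t) (s.cont t))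

/-- the map into the generated algebra -/
def Sys.i (s : Sys n T Y) (hm : ℵ₀ ≤ m) (t : T) (U : Clopens Cantor) :
    genSub m hm s.gens :=
  ⟨emb (s.f t) (s.cont t) U, subset_mcl (Set.mem_iUnion.2 ⟨t, U, rfl⟩)⟩

lemma Sys.coe_i (s : Sys n T Y) (hm : ℵ₀ ≤ m) (t : T) (U : Clopens Cantor) :
    ((s.i hm t U : genSub m hm s.gens) : RO Y) = emb (s.f t) (s.cont t) U := rfl

lemma Sys.hom (s : Sys n T Y) (hm : ℵ₀ ≤ m) (t : T) : IsMHom m (s.i hm t) where
  map_sup a b := Subtype.ext (emb_sup _ _ a b)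
  map_inf a b := Subtype.ext (emb_inf _ _ a b)
  map_compl a := Subtype.ext (emb_compl _ _ a)
  map_isLUB S a _ h := by
    apply isLUB_of_coe
    rw [Set.image_image]
    exact emb_isLUB _ _ (s.wopen t) S a h
  map_isGLB S a _ h := by
    apply isGLB_of_coe
    rw [Set.image_image]
    exact emb_isGLB _ _ (s.wopen t) S a h

/-- A set of the form of a meet of at most `n` generators. -/
lemma Sys.exists_glb (s : Sys n T Y) (hm : ℵ₀ ≤ m) (hnm : n ≤ m) (T' : Set T)
    (c : T → Clopens Cantor) (hT : #T' ≤ n) :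
    ∃ b : genSub m hm s.gens, IsGLB ((fun t => s.i hm t (c t)) '' T') b ∧
      IsGLB ((fun t => emb (s.f t) (s.cont t) (c t)) '' T') (b : RO Y) := by
  obtain ⟨b, hb⟩ := exists_glb_genSub hm (ro_allLUB Y) ((fun t => s.i hm t (c t)) '' T')
    (mk_image_le.trans (hT.trans hnm))
  refine ⟨b, isGLB_of_coe hb, ?_⟩
  rw [Set.image_image] at hb
  exact hb

lemma le_coe_of_isGLB (s : Sys n T Y) {T' : Set T} {c : T → Clopens Cantor} {b : RO Y}
    (hb : IsGLB ((fun t => emb (s.f t) (s.cont t) (c t)) '' T') b) (G : Opens Y)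
    (hG : ∀ t ∈ T', ∀ y ∈ G, s.f t y ∈ c t) : G ≤ (b : Opens Y) := by
  have : Regular.toRegular G ≤ b := by
    apply hb.2
    rintro _ ⟨t, ht, rfl⟩
    rw [Regular.gi.gc.le_iff_le]
    intro y hy
    exact hG t ht y hy
  rwa [Regular.gi.gc.le_iff_le] at this

lemma Sys.indep (s : Sys n T Y) (hm : ℵ₀ ≤ m) (hnm : n ≤ m) : Indep n (s.i hm) := by
  intro T' c hT hc
  obtain ⟨b, hb, hb'⟩ := s.exists_glb hm hnm T' c hT
  refine ⟨b, hb, ?_⟩
  rintro rfl
  obtain ⟨G, ⟨y, hy⟩, hG⟩ := s.box T' c hT hc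
  have := le_coe_of_isGLB s hb' G hG hy
  exact this

/-- The product attached to a system. -/
def Sys.prod (s : Sys n T Y) (hm : ℵ₀ ≤ m) (hnm : n ≤ m) :
    MNProduct m n (fun _ : T => Clopens Cantor) where
  carrier := genSub m hm s.gens
  inst := inferInstance
  malg := malg_genSub hm (ro_allLUB Y)
  i := s.i hm
  hom := s.hom hm
  inj t := by
    intro U V h
    apply emb_injective (s.f t) (s.cont t) (s.surj t)
    exact congrArg (fun x : genSub m hm s.gens => (x : RO Y)) h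
  indep := s.indep hm hnm
  gen := by
    have h := generates_genSub (G := s.gens) hm
    have e : (fun x : genSub m hm s.gens => (x : RO Y)) ⁻¹' s.gens
        = ⋃ t, Set.range (s.i hm t) := by
      ext x
      constructor
      · intro hx
        obtain ⟨t, U, hU⟩ := Set.mem_iUnion.1 hx
        exact Set.mem_iUnion.2 ⟨t, U, Subtype.ext hU⟩
      · intro hx
        obtain ⟨t, U, hU⟩ := Set.mem_iUnion.1 hx
        exact Set.mem_iUnion.2 ⟨t, U, congrArg Subtype.val hU⟩
    rw [e] at h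
    exact h

end product

end Pool.Agent.J4H83.Sikorski
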