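import Mathlib
import Pool.Agent.J4H83.Sikorski

set_option autoImplicit false

open Cardinal TopologicalSpace Heyting

namespace Pool.Agent.J4H83.Sikorski

/-- cylinder in the Cantor set -/
def cyl (z : Cantor) (K : ℕ) : Clopens Cantor :=
  ⟨{w | ∀ i < K, w i = z i}, by
    have : {w : Cantor | ∀ i < K, w i = z i} = ⋂ i ∈ Finset.range K, (fun w : Cantor => w i) ⁻¹' {z i} := by
      ext w; simp
    rw [this]
    exact Set.Finite.isClopen_biInter (Finset.finite_toSet _)
      (fun i _ => (isClopen_discrete {z i}).preimage (continuous_apply i))⟩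

lemma mem_cyl (z w : Cantor) (K : ℕ) : w ∈ cyl z K ↔ ∀ i < K, w i = z i := Iff.rfl

lemma self_mem_cyl (z : Cantor) (K : ℕ) : z ∈ cyl z K := fun _ _ => rfl

/-- the clopen set of points with `i`-th coordinate `α` -/
def coord (i : ℕ) (α : Bool) : Clopens Cantor :=
  ⟨(fun w : Cantor => w i) ⁻¹' {α}, (isClopen_discrete {α}).preimage (continuous_apply i)⟩

lemma mem_coord (i : ℕ) (α : Bool) (w : Cantor) : w ∈ coord i α ↔ w i = α := Iff.rfl

lemma exists_cyl_subset {U : Set Cantor} (hU : IsOpen U) {z : Cantor} (hz : z ∈ U) :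
    ∃ K : ℕ, ∀ w : Cantor, (∀ i < K, w i = z i) → w ∈ U := by
  rw [isOpen_pi_iff] at hU
  obtain ⟨I, u, hu, hsub⟩ := hU z hz
  refine ⟨I.sup id + 1, fun w hw => hsub ?_⟩
  intro i hi
  have : i ≤ I.sup id := Finset.le_sup (f := id) hi
  rw [hw i (by omega)]
  exact (hu i hi).2

lemma exists_cyl_of_ne_bot {U : Clopens Cantor} (hU : U ≠ ⊥) :
    ∃ (z : Cantor) (K : ℕ), ∀ w : Cantor, (∀ i < K, w i = z i) → w ∈ U := by
  have : (U : Set Cantor).Nonempty := by
    rw [Set.nonempty_iff_ne_empty]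
    intro h
    exact hU (Clopens.ext h)
  obtain ⟨z, hz⟩ := this
  obtain ⟨K, hK⟩ := exists_cyl_subset U.isOpen hz
  exact ⟨z, K, hK⟩

/-- The underlying space: `D` copies of the space of functions from `T` to the Cantor set. -/
def BSp (_n : Cardinal.{0}) (D T : Type) : Type := D × (T → Cantor)

variable {n : Cardinal.{0}} {D T : Type}

/-- the box topology with at most `n` restricted coordinates -/
instance [hn : Fact (ℵ₀ ≤ n)] : TopologicalSpace (BSp n D T) where
  IsOpen S := ∀ p ∈ S, ∃ k : T → ℕ, #(Function.support k) ≤ n ∧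
    ∀ x : T → Cantor, (∀ t, ∀ i < k t, x t i = p.2 t i) → ((p.1, x) : D × (T → Cantor)) ∈ S
  isOpen_univ := fun p _ => ⟨0, by simp, fun _ _ => trivial⟩
  isOpen_inter := by
    intro S S' h h' p hp
    obtain ⟨k, hk, hk2⟩ := h p hp.1
    obtain ⟨k', hk', hk2'⟩ := h' p hp.2
    refine ⟨fun t => max (k t) (k' t), ?_, fun x hx => ⟨hk2 x ?_, hk2' x ?_⟩⟩
    · refine le_trans (mk_le_mk_of_subset (t := Function.support k ∪ Function.support k') ?_) ?_
      · intro t ht
        by_contra hc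
        simp only [Set.mem_union, Function.mem_support, not_or, not_not] at hc
        apply ht
        simp [hc.1, hc.2]
      · exact (mk_union_le _ _).trans (add_le_of_le hn.out hk hk')
    · exact fun t i hi => hx t i (lt_of_lt_of_le hi (le_max_left _ _))
    · exact fun t i hi => hx t i (lt_of_lt_of_le hi (le_max_right _ _))
  isOpen_sUnion := by
    intro 𝒮 h p ⟨S, hS, hp⟩
    obtain ⟨k, hk, hk2⟩ := h S hS p hp
    exact ⟨k, hk, fun x hx => ⟨S, hS, hk2 x hx⟩⟩

lemma isOpen_iff [Fact (ℵ₀ ≤ n)] {S : Set (BSp n D T)} : IsOpen S ↔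
    ∀ p ∈ S, ∃ k : T → ℕ, #(Function.support k) ≤ n ∧
    ∀ x : T → Cantor, (∀ t, ∀ i < k t, x t i = p.2 t i) → ((p.1, x) : D × (T → Cantor)) ∈ S :=
  Iff.rfl

/-- basic open set -/
def bas [Fact (ℵ₀ ≤ n)] (p : BSp n D T) (k : T → ℕ) (hk : #(Function.support k) ≤ n) :
    Opens (BSp n D T) :=
  ⟨{q | q.1 = p.1 ∧ ∀ t, ∀ i < k t, q.2 t i = p.2 t i}, by
    rw [isOpen_iff]
    rintro q ⟨hq1, hq2⟩
    exact ⟨k, hk, fun x hx => ⟨hq1, fun t i hi => (hx t i hi).trans (hq2 t i hi)⟩⟩⟩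

/-- the general form of our maps -/
def fmap (n : Cardinal.{0}) {D T : Type} (a : T → T) (s : T → D → Cantor) (t : T)
    (p : BSp n D T) : Cantor := fun i => xor (p.2 (a t) i) (s t p.1 i)

lemma fmap_cont [Fact (ℵ₀ ≤ n)] (a : T → T) (s : T → D → Cantor) (t : T) :
    Continuous (fmap n a s t) := by
  classical
  apply continuous_pi
  intro i
  rw [continuous_def]
  intro V _
  rw [isOpen_iff]
  intro p hp
  refine ⟨Pi.single (a t) (i + 1), ?_, fun x hx => ?_⟩
  · refine (mk_le_mk_of_subset (Pi.support_single_subset)).trans ?_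
    simp only [mk_fintype, Fintype.card_unique, Nat.cast_one]
    exact one_le_aleph0.trans (Fact.out : ℵ₀ ≤ n)
  · have := hx (a t) i (by simp)
    change xor (x (a t) i) (s t p.1 i) ∈ V
    rw [this]
    exact hp

lemma fmap_wopen [Fact (ℵ₀ ≤ n)] (a : T → T) (s : T → D → Cantor) (t : T) :
    WOpen (fmap n a s t) := by
  classical
  rintro G ⟨p, hp⟩
  obtain ⟨k, hk, hkG⟩ := (isOpen_iff.1 G.isOpen) p hp
  refine ⟨cyl (fmap n a s t p) (k (a t)), ?_, ?_⟩
  · intro h
    have := self_mem_cyl (fmap n a s t p) (k (a t))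
    rw [h] at this
    exact this
  · intro z hz
    refine ⟨((p.1, Function.update p.2 (a t) (fun i => xor (z i) (s t p.1 i))) :
      D × (T → Cantor)), hkG _ ?_, ?_⟩
    · intro u i hi
      by_cases hu : u = a t
      · subst hu
        rw [Function.update_self]
        have := hz i hi
        rw [this]
        simp [fmap]
      · rw [Function.update_of_ne hu]
    · funext i
      simp [fmap]

lemma fmap_surj (d : D) (a : T → T) (s : T → D → Cantor) (t : T) :
    Function.Surjective (fmap n a s t) := by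
  intro z
  refine ⟨((d, fun _ i => xor (z i) (s t d i)) : D × (T → Cantor)), ?_⟩
  funext i
  simp [fmap]

/-- the system for the minimal product -/
def sysM (n : Cardinal.{0}) (T : Type) [hn : Fact (ℵ₀ ≤ n)] : Sys n T (BSp n Unit T) where
  f := fmap n id (fun _ _ _ => false)
  cont := fmap_cont _ _
  wopen := fmap_wopen _ _
  surj := fmap_surj () _ _
  box := by
    classical
    intro T' c hT hc
    have hex : ∀ t, ∃ (z : Cantor) (K : ℕ), (t ∈ T' → ∀ w : Cantor, (∀ i < K, w i = z i) → w ∈ c t)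
        ∧ (t ∉ T' → K = 0) := by
      intro t
      by_cases ht : t ∈ T'
      · obtain ⟨z, K, hK⟩ := exists_cyl_of_ne_bot (hc t ht)
        exact ⟨z, K, fun _ => hK, fun h => absurd ht h⟩
      · exact ⟨fun _ => false, 0, fun h => absurd h ht, fun _ => rfl⟩
    choose z K hK using hex
    have hs : #(Function.support K) ≤ n := by
      refine le_trans (mk_le_mk_of_subset ?_) hT
      intro t ht
      by_contra hc
      exact ht ((hK t).2 hc)
    refine ⟨bas (((), z) : Unit × (T → Cantor)) K hs, ⟨(((), z) : Unit × (T → Cantor)), rfl, fun _ _ _ => rfl⟩, ?_⟩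
    intro t ht q hq
    apply (hK t).1 ht
    intro i hi
    have := hq.2 t i hi
    simpa [fmap] using this

/-- the product `M` -/
def prodM (T : Type) {m n : Cardinal.{0}} (hn : ℵ₀ ≤ n) (hnm : n ≤ m) :
    MNProduct m n (fun _ : T => Clopens Cantor) :=
  haveI : Fact (ℵ₀ ≤ n) := ⟨hn⟩
  (sysM n T).prod (hn.trans hnm) hnm

lemma prodM_minimal (T : Type) {m n : Cardinal.{0}} (hn : ℵ₀ ≤ n) (hnm : n ≤ m) :
    (prodM T hn hnm).Minimal := by
  have : Fact (ℵ₀ ≤ n) := ⟨hn⟩
  have hm : ℵ₀ ≤ m := hn.trans hnm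
  change MNProduct.Minimal ((sysM n T).prod hm hnm)
  intro b hb
  change genSub m hm (sysM n T).gens at b
  have hb' : ((b : RO (BSp n Unit T)) : Opens (BSp n Unit T)) ≠ ⊥ := by
    intro h
    apply hb
    apply Subtype.ext
    apply Regular.coe_injective
    exact h
  rw [Opens.ne_bot_iff_nonempty] at hb'
  obtain ⟨p, hp⟩ := hb'
  obtain ⟨k, hk, hkb⟩ := (isOpen_iff.1 (Opens.isOpen _)) p hp
  obtain ⟨x, hx, hx'⟩ := (sysM n T).exists_glb hm hnm (Function.support k)
    (fun t => cyl (p.2 t) (k t)) hk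
  refine ⟨Function.support k, fun t => cyl (p.2 t) (k t), x, hk, hx, ?_, ?_⟩
  · obtain ⟨b', hb1, hb2⟩ := (sysM n T).indep hm hnm (Function.support k)
      (fun t => cyl (p.2 t) (k t)) hk (fun t _ h => by
        have := self_mem_cyl (p.2 t) (k t)
        rw [h] at this
        exact this)
    rw [hx.unique hb1]
    exact hb2
  · change (x : RO (BSp n Unit T)) ≤ (b : RO (BSp n Unit T))
    rw [← Regular.coe_le_coe]
    intro q hq
    have key : ∀ t, ∀ i < k t, q.2 t i = p.2 t i := by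
      intro t i hi
      have ht : t ∈ Function.support k := by
        intro h0
        rw [h0] at hi
        omega
      have h1 := hx'.1 ⟨t, ht, rfl⟩
      rw [← Regular.coe_le_coe] at h1
      have h2 := h1 hq
      have h3 := h2 i hi
      simpa [sysM, fmap] using h3
    have := hkb q.2 key
    exact this

open Classical in
/-- the system for the product `Q` -/
noncomputable def sysQ (n : Cardinal.{0}) {T : Type} [hn : Fact (ℵ₀ ≤ n)] (t₀ t₁ : T) (hne : t₀ ≠ t₁) :
    Sys n T (BSp n (Finset ℕ) T) where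
  f := fmap n (fun t => if t = t₁ then t₀ else t)
    (fun t d i => if t = t₁ then decide (i ∈ d) else false)
  cont := fmap_cont _ _
  wopen := fmap_wopen _ _
  surj := fmap_surj ∅ _ _
  box := by
    intro T' c hT hc
    have hex : ∀ t, ∃ (z : Cantor) (K : ℕ), (t ∈ T' → ∀ w : Cantor, (∀ i < K, w i = z i) → w ∈ c t)
        ∧ (t ∉ T' → K = 0) := by
      intro t
      by_cases ht : t ∈ T'
      · obtain ⟨z, K, hK⟩ := exists_cyl_of_ne_bot (hc t ht)
        exact ⟨z, K, fun _ => hK, fun h => absurd ht h⟩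
      · exact ⟨fun _ => false, 0, fun h => absurd h ht, fun _ => rfl⟩
    choose z K hK using hex
    have hs : #(Function.support (fun t => if t = t₀ ∨ t = t₁ then max (K t₀) (K t₁) else K t))
        ≤ n := by
      refine le_trans (mk_le_mk_of_subset (t := T' ∪ {t₀, t₁}) ?_) ?_
      · intro t ht
        by_contra hc'
        simp only [Set.mem_union, Set.mem_insert_iff, Set.mem_singleton_iff, not_or] at hc'
        apply ht
        simp only [hc'.2.1, hc'.2.2, or_self, if_false]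
        exact (hK t).2 hc'.1
      · refine (mk_union_le _ _).trans (add_le_of_le hn.out hT ?_)
        exact ((Set.toFinite ({t₀, t₁} : Set T)).lt_aleph0.le).trans hn.out
    set d : Finset ℕ := (Finset.range (max (K t₀) (K t₁))).filter (fun i => z t₀ i ≠ z t₁ i) with hd
    refine ⟨bas ((d, z) : Finset ℕ × (T → Cantor)) _ hs,
      ⟨((d, z) : Finset ℕ × (T → Cantor)), rfl, fun _ _ _ => rfl⟩, ?_⟩
    rintro t ht ⟨d', x⟩ ⟨hq1, hq2⟩
    change d' = d at hq1
    subst hq1
    change ∀ t, ∀ i < (if t = t₀ ∨ t = t₁ then max (K t₀) (K t₁) else K t), x t i = z t i at hq2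
    apply (hK t).1 ht
    intro i hi
    by_cases h1 : t = t₁
    · subst h1
      have h2 := hq2 t₀ i (by simp [hi])
      change xor (x (if t = t then t₀ else t) i) (if t = t then decide (i ∈ d) else false) = z t i
      simp only [if_true]
      rw [h2]
      have h3 : i ∈ d ↔ z t₀ i ≠ z t i := by
        rw [hd, Finset.mem_filter, Finset.mem_range]
        constructor
        · exact fun h => h.2
        · exact fun h => ⟨lt_of_lt_of_le hi (le_max_right _ _), h⟩
      by_cases h4 : z t₀ i = z t i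
      · have : i ∉ d := fun h => (h3.1 h) h4
        simp [this, h4]
      · have : i ∈ d := h3.2 h4
        simp only [this, decide_true, Bool.xor_true]
        revert h4
        cases z t₀ i <;> cases z t i <;> simp
    · have h2 := hq2 t i (by
        by_cases h0 : t = t₀
        · subst h0; simp [hi]
        · simp [h0, h1, hi])
      change xor (x (if t = t₁ then t₀ else t) i) (if t = t₁ then decide (i ∈ d) else false) = z t i
      simp [h1, h2]

/-- the product `Q` -/
noncomputable def prodQ {T : Type} {m n : Cardinal.{0}} (hn : ℵ₀ ≤ n) (hnm : n ≤ m) (t₀ t₁ : T)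
    (hne : t₀ ≠ t₁) :
    MNProduct m n (fun _ : T => Clopens Cantor) :=
  haveI : Fact (ℵ₀ ≤ n) := ⟨hn⟩
  (sysQ n t₀ t₁ hne).prod (hn.trans hnm) hnm

section

variable {m : Cardinal.{0}} (t₀ t₁ : T) (P : MNProduct m n (fun _ : T => Clopens Cantor))

/-- the element saying that the `i`-th coordinates differ by `δ` -/
def fel (i : ℕ) (δ : Bool) : P.carrier :=
  ((P.i t₀ (coord i true) ⊓ P.i t₁ (coord i δ)) ⊔ (P.i t₀ (coord i false) ⊓ P.i t₁ (coord i (!δ))))ᶜ

end

lemma IsMHom.map_bot' {m : Cardinal.{0}} {A B : Type} [BooleanAlgebra A] [BooleanAlgebra B]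
    {f : A → B} (h : IsMHom m f) : f ⊥ = ⊥ := by
  have : (⊥ : A) = ⊥ ⊓ ⊥ᶜ := by simp
  rw [this, h.map_inf, h.map_compl]
  simp

lemma IsMHom.map_top' {m : Cardinal.{0}} {A B : Type} [BooleanAlgebra A] [BooleanAlgebra B]
    {f : A → B} (h : IsMHom m f) : f ⊤ = ⊤ := by
  have : (⊤ : A) = ⊥ᶜ := by simp
  rw [this, h.map_compl, h.map_bot']
  simp

lemma IsMHom.mono {m : Cardinal.{0}} {A B : Type} [BooleanAlgebra A] [BooleanAlgebra B]
    {f : A → B} (h : IsMHom m f) {a b : A} (hab : a ≤ b) : f a ≤ f b := by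
  have := h.map_sup a b
  rw [sup_eq_right.2 hab] at this
  rw [this]
  exact le_sup_left

lemma glb_eq_bot {m : Cardinal.{0}} (hn : ℵ₀ ≤ n) {t₀ t₁ : T} (hne : t₀ ≠ t₁)
    (P : MNProduct m n (fun _ : T => Clopens Cantor)) (hP : P.Minimal) (δ : ℕ → Bool)
    (g : P.carrier) (hg : IsGLB (Set.range fun i => fel t₀ t₁ P i (δ i)) g) : g = ⊥ := by
  classical
  by_contra hgne
  obtain ⟨T', c, x, hT, hx, hxne, hxg⟩ := hP g hgne
  set c' : T → Clopens Cantor := fun t => if t ∈ T' then c t else ⊤ with hc'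
  have hc'ne : ∀ t, c' t ≠ ⊥ := by
    intro t h
    by_cases ht : t ∈ T'
    · rw [hc'] at h
      simp only [ht, if_true] at h
      apply hxne
      have := hx.1 ⟨t, ht, rfl⟩
      simp only [h] at this
      rw [(P.hom t).map_bot'] at this
      exact le_bot_iff.1 this
    · rw [hc'] at h
      simp only [ht, if_false] at h
      have h2 : (fun _ => false : Cantor) ∈ (⊤ : Clopens Cantor) := trivial
      rw [h] at h2
      exact h2
  obtain ⟨z₀, K₀, h₀⟩ := exists_cyl_of_ne_bot (hc'ne t₀)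
  obtain ⟨z₁, K₁, h₁⟩ := exists_cyl_of_ne_bot (hc'ne t₁)
  set i := max K₀ K₁ with hi
  have hex : ∀ (U : Clopens Cantor) (z : Cantor) (K : ℕ) (α : Bool), K ≤ i →
      (∀ w : Cantor, (∀ j < K, w j = z j) → w ∈ U) → U ⊓ coord i α ≠ ⊥ := by
    intro U z K α hKi hU h
    have h2 : Function.update z i α ∈ U ⊓ coord i α := by
      refine ⟨hU _ ?_, ?_⟩
      · intro j hj
        rw [Function.update_of_ne (by omega)]
      · change Function.update z i α i = α
        simp
    rw [h] at h2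
    exact h2
  have e₀ := hex _ z₀ K₀ true (le_max_left _ _) h₀
  have e₁ := hex _ z₁ K₁ (δ i) (le_max_right _ _) h₁
  set c'' : T → Clopens Cantor := fun t => if t = t₀ then c' t₀ ⊓ coord i true else
    if t = t₁ then c' t₁ ⊓ coord i (δ i) else c' t with hc''
  have hc''ne : ∀ t, c'' t ≠ ⊥ := by
    intro t
    rw [hc'']
    dsimp only
    split_ifs
    · exact e₀
    · exact e₁
    · exact hc'ne t
  obtain ⟨b, hb, hbne⟩ := P.indep (T' ∪ {t₀, t₁}) c''
    ((mk_union_le _ _).trans (add_le_of_le hn hT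
      (((Set.toFinite ({t₀, t₁} : Set T)).lt_aleph0.le).trans hn))) (fun t _ => hc''ne t)
  have hle : ∀ t, c'' t ≤ c' t := by
    intro t
    rw [hc'']
    dsimp only
    split_ifs with h h'
    · subst h; exact inf_le_left
    · subst h'; exact inf_le_left
    · exact le_rfl
  have hbx : b ≤ x := by
    apply hx.2
    rintro _ ⟨t, ht, rfl⟩
    refine (hb.1 ⟨t, Or.inl ht, rfl⟩).trans ((P.hom t).mono ?_)
    refine (hle t).trans ?_
    rw [hc']
    simp [ht]
  have hb1 : b ≤ P.i t₀ (coord i true) := by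
    refine (hb.1 ⟨t₀, Or.inr (by simp), rfl⟩).trans ((P.hom t₀).mono ?_)
    rw [hc'']
    simp
  have hb2 : b ≤ P.i t₁ (coord i (δ i)) := by
    refine (hb.1 ⟨t₁, Or.inr (by simp), rfl⟩).trans ((P.hom t₁).mono ?_)
    rw [hc'']
    simp [hne.symm]
  have hb3 : b ≤ fel t₀ t₁ P i (δ i) := (hbx.trans hxg).trans (hg.1 ⟨i, rfl⟩)
  apply hbne
  rw [← le_bot_iff]
  have h5 : b ≤ (P.i t₀ (coord i true) ⊓ P.i t₁ (coord i (δ i))) ⊔
      (P.i t₀ (coord i false) ⊓ P.i t₁ (coord i (!(δ i)))) :=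
    (le_inf hb1 hb2).trans le_sup_left
  have h6 := le_inf h5 hb3
  rw [fel, inf_compl_self] at h6
  exact h6

lemma top_ne_bot' {m : Cardinal.{0}} (P : MNProduct m n (fun _ : T => Clopens Cantor)) :
    (⊤ : P.carrier) ≠ ⊥ := by
  intro h
  obtain ⟨b, _, hbne⟩ := P.indep ∅ (fun _ => ⊤) (by simp) (by simp)
  apply hbne
  rw [← le_bot_iff, ← h]
  exact le_top

lemma prodQ_facts {T : Type} {m n : Cardinal.{0}} (hn : ℵ₀ ≤ n) (hnm : n ≤ m) (t₀ t₁ : T)
    (hne : t₀ ≠ t₁) : ∃ e : Finset ℕ → (prodQ hn hnm t₀ t₁ hne).carrier,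
    (∀ d, IsGLB (Set.range fun i => fel t₀ t₁ (prodQ hn hnm t₀ t₁ hne) i (decide (i ∈ d))) (e d)) ∧
    IsLUB (Set.range e) ⊤ := by
  classical
  have hF : Fact (ℵ₀ ≤ n) := ⟨hn⟩
  have hm : ℵ₀ ≤ m := hn.trans hnm
  set s := sysQ n t₀ t₁ hne with hs
  change ∃ e : Finset ℕ → genSub m hm s.gens,
    (∀ d, IsGLB (Set.range fun i => (fel t₀ t₁ (s.prod hm hnm) i (decide (i ∈ d)) : genSub m hm s.gens)) (e d)) ∧
    IsLUB (Set.range e) ⊤
  have hex : ∀ d : Finset ℕ, ∃ a : genSub m hm s.gens, IsGLB ((fun x : genSub m hm s.gens => (x : RO (BSp n (Finset ℕ) T))) ''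
      (Set.range fun i => (fel t₀ t₁ (s.prod hm hnm) i (decide (i ∈ d)) : genSub m hm s.gens))) (a : RO (BSp n (Finset ℕ) T)) := by
    intro d
    apply exists_glb_genSub hm (ro_allLUB _)
    exact (mk_range_le.trans (by simp)).trans hm
  choose e he using hex
  refine ⟨e, fun d => isGLB_of_coe (he d), fun _ _ => le_top, ?_⟩
  intro W hW
  change genSub m hm s.gens at W
  rw [top_le_iff]
  by_contra hWne
  have hWc : (((Wᶜ : genSub m hm s.gens) : RO (BSp n (Finset ℕ) T)) : Opens (BSp n (Finset ℕ) T)) ≠ ⊥ := by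
    intro h
    apply hWne
    have : (Wᶜ : genSub m hm s.gens) = ⊥ := by
      apply Subtype.ext
      apply Regular.coe_injective
      exact h
    rwa [compl_eq_bot] at this
  rw [Opens.ne_bot_iff_nonempty] at hWc
  obtain ⟨p, hp⟩ := hWc
  obtain ⟨k, hk, hkW⟩ := (isOpen_iff.1 (Opens.isOpen _)) p hp
  have hpG : p ∈ bas p k hk := ⟨rfl, fun _ _ _ => rfl⟩
  -- the basic set lies in the complement of `W`
  have hGW : bas p k hk ≤ (((Wᶜ : genSub m hm s.gens) : RO (BSp n (Finset ℕ) T)) : Opens (BSp n (Finset ℕ) T)) := by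
    rintro ⟨d, x⟩ ⟨h1, h2⟩
    change d = p.1 at h1
    subst h1
    exact hkW x h2
  have hGe : bas p k hk ≤ ((e p.1 : RO (BSp n (Finset ℕ) T)) : Opens (BSp n (Finset ℕ) T)) := by
    rw [← Regular.gi.gc.le_iff_le]
    apply (he p.1).2
    rintro _ ⟨_, ⟨i, rfl⟩, rfl⟩
    rw [Regular.gi.gc.le_iff_le]
    change bas p k hk ≤ (((((emb (s.f t₀) (s.cont t₀) (coord i true) ⊓ emb (s.f t₁) (s.cont t₁) (coord i (decide (i ∈ p.1)))) ⊔
      (emb (s.f t₀) (s.cont t₀) (coord i false) ⊓ emb (s.f t₁) (s.cont t₁) (coord i (!(decide (i ∈ p.1))))))ᶜ :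
      RO (BSp n (Finset ℕ) T))) : Opens (BSp n (Finset ℕ) T))
    rw [Regular.coe_compl, Regular.coe_sup, compl_compl_compl, le_compl_iff_disjoint_right,
      ← Opens.coe_disjoint, Set.disjoint_left]
    rintro ⟨d, x⟩ ⟨h1, h2⟩ h3
    change d = p.1 at h1
    subst h1
    have f0 : s.f t₀ ((p.1, x) : Finset ℕ × (T → Cantor)) i = x t₀ i := by
      change xor (x (if t₀ = t₁ then t₀ else t₀) i) (if t₀ = t₁ then decide (i ∈ p.1) else false) = x t₀ i
      simp [hne]
    have f1 : s.f t₁ ((p.1, x) : Finset ℕ × (T → Cantor)) i = xor (x t₀ i) (decide (i ∈ p.1)) := by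
      change xor (x (if t₁ = t₁ then t₀ else t₁) i) (if t₁ = t₁ then decide (i ∈ p.1) else false) = _
      simp
    rcases h3 with ⟨h4, h5⟩ | ⟨h4, h5⟩
    · have h4' : s.f t₀ ((p.1, x) : Finset ℕ × (T → Cantor)) i = true := h4
      have h5' : s.f t₁ ((p.1, x) : Finset ℕ × (T → Cantor)) i = decide (i ∈ p.1) := h5
      rw [f0] at h4'
      rw [f1, h4'] at h5'
      revert h5'
      cases decide (i ∈ p.1) <;> simp
    · have h4' : s.f t₀ ((p.1, x) : Finset ℕ × (T → Cantor)) i = false := h4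
      have h5' : s.f t₁ ((p.1, x) : Finset ℕ × (T → Cantor)) i = !decide (i ∈ p.1) := h5
      rw [f0] at h4'
      rw [f1, h4'] at h5'
      revert h5'
      cases decide (i ∈ p.1) <;> simp
  have h7 : (e p.1) ≤ W := hW ⟨p.1, rfl⟩
  have h8 : ((e p.1 : RO (BSp n (Finset ℕ) T)) : Opens (BSp n (Finset ℕ) T)) ≤ ((W : RO (BSp n (Finset ℕ) T)) : Opens (BSp n (Finset ℕ) T)) :=
    Regular.coe_le_coe.2 h7
  have h9 : bas p k hk ≤ ((W : RO (BSp n (Finset ℕ) T)) : Opens (BSp n (Finset ℕ) T)) ⊓ ((W : RO (BSp n (Finset ℕ) T)) : Opens (BSp n (Finset ℕ) T))ᶜ :=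
    le_inf (hGe.trans h8) hGW
  rw [inf_compl_self] at h9
  exact h9 hpG

theorem main (T : Type) (t₀ t₁ : T) (hne : t₀ ≠ t₁) (m n : Cardinal.{0}) (hn : ℵ₀ ≤ n) (hnm : n ≤ m) :
    (∃ M : MNProduct m n (fun _ : T => Clopens (ℕ → Bool)), M.Minimal) ∧
    ∃ Q : MNProduct m n (fun _ : T => Clopens (ℕ → Bool)),
      ∀ M : MNProduct m n (fun _ : T => Clopens (ℕ → Bool)), M.Minimal → ¬ M.LE Q := by
  refine ⟨⟨prodM T hn hnm, prodM_minimal T hn hnm⟩, prodQ hn hnm t₀ t₁ hne, ?_⟩
  rintro M hM ⟨h, hh, hcomm⟩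
  obtain ⟨e, he1, he2⟩ := prodQ_facts hn hnm t₀ t₁ hne
  have hfel : ∀ i δ, h (fel t₀ t₁ (prodQ hn hnm t₀ t₁ hne) i δ) = fel t₀ t₁ M i δ := by
    intro i δ
    unfold fel
    rw [hh.map_compl, hh.map_sup, hh.map_inf, hh.map_inf, hcomm, hcomm, hcomm, hcomm]
  have hbot : ∀ d, h (e d) = ⊥ := by
    intro d
    apply glb_eq_bot hn hne M hM (fun i => decide (i ∈ d))
    have h1 := hh.map_isGLB _ _ ((mk_range_le.trans (by simp)).trans (hn.trans hnm)) (he1 d)
    rw [← Set.range_comp] at h1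
    have h2 : (h ∘ fun i => fel t₀ t₁ (prodQ hn hnm t₀ t₁ hne) i (decide (i ∈ d)))
        = fun i => fel t₀ t₁ M i (decide (i ∈ d)) := by
      funext i
      exact hfel i _
    rw [h2] at h1
    exact h1
  have h3 := hh.map_isLUB _ _ ((mk_range_le.trans (by simp)).trans (hn.trans hnm)) he2
  rw [hh.map_top'] at h3
  apply top_ne_bot' M
  rw [← le_bot_iff]
  apply h3.2
  rintro _ ⟨_, ⟨d, rfl⟩, rfl⟩
  rw [hbot d]

end Pool.Agent.J4H83.Sikorski
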